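import Pool.Agent.Run7.h230.QF.Stm2
import Pool.Agent.Run7.h590.QF.FAM

/-!
# Project QF, phase 2: pieces FIX, STEP, SUP, TRF
-/

set_option autoImplicit false

namespace Run7.h935.QF

open Pool.Agent.Run7.h230.QF
open Pool.Agent.H97R3.VR (IsMedian IsConvex Btw)
open Pool.Agent.TH97.VR (walls)
open Pointwise

section
variable {V : Type} {G : Type} [Group G] [MulAction G V] {k : ℕ}

theorem eqv_symm {P : Set (Fin k → ℤ)} {f h : (Fin k → ℤ) → V} (H : Eqv G P f h) :
    Eqv G P h f := by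
  obtain ⟨g, hg⟩ := H
  exact ⟨g⁻¹, fun z hz => by rw [← hg z hz, inv_smul_smul]⟩

theorem eqv_trans {P : Set (Fin k → ℤ)} {f h l : (Fin k → ℤ) → V} (H : Eqv G P f h)
    (H' : Eqv G P h l) : Eqv G P f l := by
  obtain ⟨g, hg⟩ := H
  obtain ⟨g', hg'⟩ := H'
  exact ⟨g' * g, fun z hz => by rw [mul_smul, hg z hz, hg' z hz]⟩

theorem eqv_mono {P Q : Set (Fin k → ℤ)} (hPQ : P ⊆ Q) {f h : (Fin k → ℤ) → V}
    (H : Eqv G Q f h) : Eqv G P f h := by
  obtain ⟨g, hg⟩ := H
  exact ⟨g, fun z hz => hg z (hPQ hz)⟩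

theorem eqv_congr {P : Set (Fin k → ℤ)} {f h f' h' : (Fin k → ℤ) → V} (H : Eqv G P f h)
    (hf : ∀ z ∈ P, f z = f' z) (hh : ∀ z ∈ P, h z = h' z) : Eqv G P f' h' := by
  obtain ⟨g, hg⟩ := H
  exact ⟨g, fun z hz => by rw [← hf z hz, ← hh z hz, hg z hz]⟩

/-- an indexed family of pairwise inequivalent members -/
theorem many_of {ι : Type} (L : Set ((Fin k → ℤ) → V)) (P : Set (Fin k → ℤ)) (I : Finset ι)
    (φ : ι → (Fin k → ℤ) → V) (hL : ∀ a ∈ I, φ a ∈ L)
    (hne : ∀ a ∈ I, ∀ b ∈ I, a ≠ b → ¬ Eqv G P (φ a) (φ b)) (c : ℕ) (hc : c ≤ I.card) :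
    Many G L P c := by
  classical
  have hinj : Set.InjOn φ (I : Set ι) := by
    intro a ha b hb hab
    by_contra hn
    refine hne a ha b hb hn ⟨1, fun z _ => ?_⟩
    rw [one_smul, hab]
  refine ⟨I.image φ, ?_, ?_, ?_⟩
  · intro f hf
    obtain ⟨a, ha, rfl⟩ := Finset.mem_image.1 hf
    exact hL a ha
  · rw [Finset.card_image_of_injOn hinj]
    exact hc
  · intro f hf h hh hfh
    obtain ⟨a, ha, rfl⟩ := Finset.mem_image.1 hf
    obtain ⟨b, hb, rfl⟩ := Finset.mem_image.1 hh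
    exact hne a ha b hb fun hab => hfh (by rw [hab])

theorem many_le {L : Set ((Fin k → ℤ) → V)} {P : Set (Fin k → ℤ)} {c c' : ℕ} (h : c' ≤ c)
    (H : Many G L P c) : Many G L P c' := by
  obtain ⟨S, h1, h2, h3⟩ := H
  exact ⟨S, h1, h.trans h2, h3⟩

theorem wd_mono (i : Fin k) (n : ℕ) {m m' : ℕ} (h : m ≤ m') :
    (Wd i n m : Set (Fin k → ℤ)) ⊆ Wd i n m' := by
  rintro z ⟨h1, h2, h3⟩
  have : (m : ℤ) ≤ m' := by exact_mod_cast h
  exact ⟨h1, by omega, h3⟩

theorem tb_mono (i : Fin k) (n : ℕ) {m m' : ℕ} (h : m ≤ m') :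
    (Tb i n m : Set (Fin k → ℤ)) ⊆ Tb i n m' := by
  rintro z ⟨h1, h2, h3⟩
  have : (m : ℤ) ≤ m' := by exact_mod_cast h
  exact ⟨h1, h2, by omega⟩

theorem manyHP_mono {L : Set ((Fin k → ℤ) → V)} {i : Fin k} {n m m' s : ℕ} (h : m ≤ m')
    (H : ManyHP G L i (Wd i n m) s) : ManyHP G L i (Wd i n m') s := by
  obtain ⟨T, h1, h2, h3⟩ := H
  exact ⟨T, h1, h2, fun p hp q hq hpq he => h3 p hp q hq hpq (eqv_mono (wd_mono i n h) he)⟩

end

theorem t_STEP : S_STEP := by
  intro V G _ _ Γ hA k L hL i n₀ n m c s hfix hn hm hMany hHP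
  classical
  obtain ⟨S, hSL, hSc, hSne⟩ := hMany
  obtain ⟨T, hTL, hTc, hTne⟩ := hHP
  have hmz : (2 * n₀ : ℤ) ≤ m := by exact_mod_cast hm
  have hnz : (n₀ : ℤ) ≤ n := by exact_mod_cast hn
  let A : ((Fin k → ℤ) → V) × ((Fin k → ℤ) → V) → (Fin k → ℤ) → V :=
    fun p z => p.1 (z - Pi.single i (m : ℤ))
  let B : ((Fin k → ℤ) → V) × ((Fin k → ℤ) → V) → (Fin k → ℤ) → V :=
    fun p z => p.2 (z - Pi.single i (m : ℤ))
  -- membership
  have hAL : ∀ p ∈ T, A p ∈ L := by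
    intro p hp
    have := hL.shift p.1 (hTL p hp).1 (-Pi.single i (m : ℤ))
    simpa [A, sub_eq_add_neg] using this
  have hBL : ∀ p ∈ T, B p ∈ L := by
    intro p hp
    have := hL.shift p.2 (hTL p hp).2.1 (-Pi.single i (m : ℤ))
    simpa [B, sub_eq_add_neg] using this
  -- (a)
  have hAB : ∀ p ∈ T, ∀ z ∈ (Tb i n m : Set (Fin k → ℤ)), A p z = B p z := by
    intro p hp z hz
    refine ((hTL p hp).2.2 _).2 ?_
    have := hz.2.2
    simp only [Pi.sub_apply, Pi.single_eq_same]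
    omega
  -- (b)
  have hb : ∀ p ∈ T, ∀ q ∈ T, p ≠ q → ¬ Eqv G (Tb i n m : Set (Fin k → ℤ)) (A p) (A q) := by
    rintro p hp q hq hpq ⟨g, hg⟩
    refine hTne p hp q hq hpq ⟨g, fun w hw => ?_⟩
    have h1 : w + Pi.single i (m : ℤ) ∈ (Tb i n m : Set (Fin k → ℤ)) := by
      refine ⟨fun i' hi' => ?_, ?_, ?_⟩
      · have := hw.1 i' hi'
        simpa [Pi.single_eq_of_ne hi'] using this
      · have := hw.2.1
        simp only [Pi.add_apply, Pi.single_eq_same]
        omega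
      · have := hw.2.2
        simp only [Pi.add_apply, Pi.single_eq_same]
        omega
    have h2 := hg _ h1
    simpa [A] using h2
  -- (c)
  have hc : ∀ p ∈ T, ¬ Eqv G (Tb i n (m + 1) : Set (Fin k → ℤ)) (A p) (B p) := by
    rintro p hp ⟨g, hg⟩
    have h0 : ∀ w : Fin k → ℤ, (∀ i', i' ≠ i → |w i'| ≤ (n : ℤ)) → -(m : ℤ) ≤ w i → w i ≤ 1 →
        g • p.1 w = p.2 w := by
      intro w h1 h2 h3
      have h4 : w + Pi.single i (m : ℤ) ∈ (Tb i n (m + 1) : Set (Fin k → ℤ)) := by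
        refine ⟨fun i' hi' => ?_, ?_, ?_⟩
        · have := h1 i' hi'
          simpa [Pi.single_eq_of_ne hi'] using this
        · simp only [Pi.add_apply, Pi.single_eq_same]
          omega
        · simp only [Pi.add_apply, Pi.single_eq_same]
          push_cast
          omega
      have h5 := hg _ h4
      simpa [A, B] using h5
    have h1 : ∀ z : Fin k → ℤ, g • p.1 (z + -Pi.single i (n₀ : ℤ)) = p.1 (z + -Pi.single i (n₀ : ℤ)) := by
      refine hfix _ (hL.shift p.1 (hTL p hp).1 (-Pi.single i (n₀ : ℤ))) g ?_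
      intro z hz
      have hzi := abs_le.1 (hz i)
      have e1 : (z + -(Pi.single i (n₀ : ℤ) : Fin k → ℤ)) i = z i - n₀ := by
        simp [sub_eq_add_neg]
      have h2 : g • p.1 (z + -Pi.single i (n₀ : ℤ)) = p.2 (z + -Pi.single i (n₀ : ℤ)) := by
        refine h0 _ (fun i' hi' => ?_) ?_ ?_
        · have := hz i'
          have e2 : (z + -(Pi.single i (n₀ : ℤ) : Fin k → ℤ)) i' = z i' := by
            simp [Pi.single_eq_of_ne hi']
          rw [e2]
          exact this.trans hnz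
        · rw [e1]; omega
        · rw [e1]; omega
      rw [h2]
      refine (((hTL p hp).2.2 _).2 ?_).symm
      rw [e1]; omega
    have h2 : g • p.1 (Pi.single i (1 : ℤ)) = p.2 (Pi.single i (1 : ℤ)) := by
      refine h0 _ (fun i' hi' => ?_) ?_ ?_
      · rw [Pi.single_eq_of_ne hi']; simp
      · rw [Pi.single_eq_same]; omega
      · rw [Pi.single_eq_same]
    have h3 := h1 (Pi.single i (1 : ℤ) + Pi.single i (n₀ : ℤ))
    rw [add_neg_cancel_right] at h3
    rw [h3] at h2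
    have h4 := ((hTL p hp).2.2 _).1 h2
    rw [Pi.single_eq_same] at h4
    omega
  -- (d)
  let S₀ := S.filter fun f => ∀ p ∈ T, ¬ Eqv G (Tb i n m : Set (Fin k → ℤ)) (A p) f
  have hS₀ : S.card ≤ S₀.card + T.card := by
    have h1 : (S.filter fun f => ¬ ∀ p ∈ T, ¬ Eqv G (Tb i n m : Set (Fin k → ℤ)) (A p) f).card ≤
        T.card := by
      have h2 : ∀ f ∈ (S.filter fun f => ¬ ∀ p ∈ T, ¬ Eqv G (Tb i n m : Set (Fin k → ℤ)) (A p) f),
          ∃ p ∈ T, Eqv G (Tb i n m : Set (Fin k → ℤ)) (A p) f := by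
        intro f hf
        have := (Finset.mem_filter.1 hf).2
        push Not at this
        exact this
      choose! P hP1 hP2 using h2
      refine Finset.card_le_card_of_injOn P (fun f hf => hP1 f hf) ?_
      intro f hf f' hf' hff
      by_contra hn
      have hf1 := (Finset.mem_filter.1 (Finset.mem_coe.1 hf)).1
      have hf1' := (Finset.mem_filter.1 (Finset.mem_coe.1 hf')).1
      refine hSne f hf1 f' hf1' hn (eqv_trans (eqv_symm (hP2 f hf)) ?_)
      rw [hff]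
      exact hP2 f' hf'
    have h3 := Finset.card_filter_add_card_filter_not (s := S)
      (p := fun f => ∀ p ∈ T, ¬ Eqv G (Tb i n m : Set (Fin k → ℤ)) (A p) f)
    show S.card ≤ (S.filter fun f => ∀ p ∈ T, ¬ Eqv G (Tb i n m : Set (Fin k → ℤ)) (A p) f).card +
      T.card
    omega
  have hmono : (Tb i n m : Set (Fin k → ℤ)) ⊆ Tb i n (m + 1) := tb_mono i n (Nat.le_succ m)
  have kSA : ∀ f ∈ S₀, ∀ p ∈ T, ¬ Eqv G (Tb i n (m + 1) : Set (Fin k → ℤ)) (A p) f := by
    intro f hf p hp he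
    exact (Finset.mem_filter.1 hf).2 p hp (eqv_mono hmono he)
  have kSB : ∀ f ∈ S₀, ∀ p ∈ T, ¬ Eqv G (Tb i n (m + 1) : Set (Fin k → ℤ)) (B p) f := by
    intro f hf p hp he
    exact (Finset.mem_filter.1 hf).2 p hp (eqv_congr (eqv_mono hmono he)
      (fun z hz => (hAB p hp z hz).symm) fun z _ => rfl)
  have kAA : ∀ p ∈ T, ∀ q ∈ T, p ≠ q →
      ¬ Eqv G (Tb i n (m + 1) : Set (Fin k → ℤ)) (A p) (A q) :=
    fun p hp q hq hpq he => hb p hp q hq hpq (eqv_mono hmono he)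
  have kAB : ∀ p ∈ T, ∀ q ∈ T, ¬ Eqv G (Tb i n (m + 1) : Set (Fin k → ℤ)) (A p) (B q) := by
    intro p hp q hq he
    by_cases hpq : p = q
    · subst hpq
      exact hc p hp he
    · exact hb p hp q hq hpq (eqv_congr (eqv_mono hmono he) (fun z _ => rfl)
        (fun z hz => (hAB q hq z hz).symm))
  have kBB : ∀ p ∈ T, ∀ q ∈ T, p ≠ q →
      ¬ Eqv G (Tb i n (m + 1) : Set (Fin k → ℤ)) (B p) (B q) :=
    fun p hp q hq hpq he => hb p hp q hq hpq (eqv_congr (eqv_mono hmono he)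
      (fun z hz => (hAB p hp z hz).symm) (fun z hz => (hAB q hq z hz).symm))
  refine many_of L _ (S₀.disjSum (T.disjSum T)) (Sum.elim (fun f => f) (Sum.elim A B)) ?_ ?_ _ ?_
  · rintro (f | p | p) ha
    · simp only [Finset.inl_mem_disjSum] at ha
      exact hSL f (Finset.mem_filter.1 ha).1
    · simp only [Finset.inr_mem_disjSum, Finset.inl_mem_disjSum] at ha
      exact hAL p ha
    · simp only [Finset.inr_mem_disjSum] at ha
      exact hBL p ha
  · rintro (f | p | p) ha (f' | q | q) hb' hne <;>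
      simp only [Finset.inr_mem_disjSum, Finset.inl_mem_disjSum] at ha hb' <;>
      simp only [Sum.elim_inl, Sum.elim_inr]
    · have : f ≠ f' := fun h => hne (by rw [h])
      exact fun he => hSne f (Finset.mem_filter.1 ha).1 f' (Finset.mem_filter.1 hb').1 this
        (eqv_mono hmono he)
    · exact fun he => kSA f ha q hb' (eqv_symm he)
    · exact fun he => kSB f ha q hb' (eqv_symm he)
    · exact kSA f' hb' p ha
    · exact kAA p ha q hb' fun h => hne (by rw [h])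
    · exact kAB p ha q hb'
    · exact kSB f' hb' p ha
    · exact fun he => kAB q hb' p ha (eqv_symm he)
    · exact kBB p ha q hb' fun h => hne (by rw [h])
  · rw [Finset.card_disjSum, Finset.card_disjSum]
    omega

theorem t_SUP : S_SUP := by
  intro V G _ _ Γ hA k L hL i n₀ n hfix hn hHP C
  obtain ⟨m₂, hm₂⟩ := hHP (C + 1)
  set m₁ := max (2 * n₀) m₂ with hm₁
  have h1 : ∀ j, Many G L (Tb i n (m₁ + j)) (j * (C + 1)) := by
    intro j
    induction j with
    | zero =>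
      refine ⟨∅, ?_, ?_, ?_⟩
      · intro f hf; exact absurd hf (Finset.notMem_empty f)
      · simp
      · intro f hf; exact absurd hf (Finset.notMem_empty f)
    | succ j ih =>
      have h2 := t_STEP V G Γ hA k L hL i n₀ n (m₁ + j) (j * (C + 1)) (C + 1) hfix hn
        (by omega) ih (manyHP_mono (by omega) hm₂)
      have e : (j + 1) * (C + 1) = j * (C + 1) + (C + 1) := by ring
      rw [e]
      exact h2
  refine ⟨m₁ * (C + 1), fun m hm => ?_⟩
  have hle : m₁ ≤ m := le_trans (Nat.le_mul_of_pos_right m₁ (Nat.succ_pos C)) hm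
  obtain ⟨j, rfl⟩ := Nat.exists_eq_add_of_le hle
  refine many_le ?_ (h1 j)
  have : C * (m₁ + j) + (m₁ + j) = (m₁ + j) * (C + 1) := by ring
  have h3 : (m₁ + j) * (C + 1) = m₁ * (C + 1) + j * (C + 1) := by ring
  omega

theorem t_TRF : S_TRF := by
  intro V G _ _ k f L hL i n m c hM
  classical
  obtain ⟨S, hSL, hSc, hSne⟩ := hM
  have h1 : ∀ h ∈ S, ∃ (g : G) (b : Fin k → ℤ), Agree h (fun z => g • f (z + b)) (n + m) :=
    fun h hh => hL (hSL h hh) (n + m)
  choose! g b hgb using h1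
  have hcube : ∀ z ∈ (Tb i n m : Set (Fin k → ℤ)), ∀ i', |z i'| ≤ ((n + m : ℕ) : ℤ) := by
    intro z hz i'
    by_cases hi : i' = i
    · subst hi
      rw [abs_le]
      have h2 := hz.2.1
      have h3 := hz.2.2
      push_cast
      constructor <;> omega
    · have := hz.1 i' hi
      push_cast
      have h0 : (0 : ℤ) ≤ m := Int.natCast_nonneg m
      omega
  have key : ∀ h ∈ S, ∀ l ∈ S, h ≠ l →
      ¬ ∃ u : G, ∀ z ∈ (Tb i n m : Set (Fin k → ℤ)), u • f (b h + z) = f (b l + z) := by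
    rintro h hh l hl hne ⟨u, hu⟩
    refine hSne h hh l hl hne ⟨g l * u * (g h)⁻¹, fun z hz => ?_⟩
    have h2 := hgb h hh z (hcube z hz)
    have h3 := hgb l hl z (hcube z hz)
    simp only at h2 h3
    rw [h2, h3, mul_smul, inv_smul_smul, mul_smul, add_comm z (b h), hu z hz, add_comm z (b l)]
  have hinj : Set.InjOn b (S : Set ((Fin k → ℤ) → V)) := by
    intro h hh l hl hbl
    by_contra hne
    exact key h hh l hl hne ⟨1, fun z _ => by rw [one_smul, hbl]⟩
  refine ⟨S.image b, ?_, ?_⟩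
  · rw [Finset.card_image_of_injOn hinj]; exact hSc
  · intro x hx y hy hxy
    obtain ⟨h, hh, rfl⟩ := Finset.mem_image.1 hx
    obtain ⟨l, hl, rfl⟩ := Finset.mem_image.1 hy
    exact key h hh l hl fun e => hxy (by rw [e])

theorem t_FIX : S_FIX := by
  intro V G _ _ Γ hA k L hmin hne
  classical
  let F : ((Fin k → ℤ) → V) → Set G := fun h => {g | ∀ z, g • h z = h z}
  have hFfin : ∀ h, (F h).Finite := fun h => (hA.stab (h 0)).subset fun g hg => hg 0
  -- the minimal one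
  obtain ⟨h₀, hh₀, hmin₀⟩ : ∃ h₀ ∈ L, ∀ h ∈ L, (F h₀).ncard ≤ (F h).ncard := by
    obtain ⟨h1, hh1⟩ := hne
    have hex : ∃ n, ∃ h ∈ L, (F h).ncard = n := ⟨_, h1, hh1, rfl⟩
    obtain ⟨h₀, hh₀, he⟩ := Nat.find_spec hex
    refine ⟨h₀, hh₀, fun h hh => ?_⟩
    rw [he]
    exact Nat.find_min' hex ⟨h, hh, rfl⟩
  -- the radius
  obtain ⟨n₁, hn₁⟩ : ∃ n₁ : ℕ, ∀ g : G, (∀ z : Fin k → ℤ, (∀ i, |z i| ≤ (n₁ : ℤ)) →
      g • h₀ z = h₀ z) → g ∈ F h₀ := by
    have h1 : ∀ g : G, ∃ n : ℕ, (∀ z : Fin k → ℤ, (∀ i, |z i| ≤ (n : ℤ)) →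
      g • h₀ z = h₀ z) → g ∈ F h₀ := by
      intro g
      by_cases hg : g ∈ F h₀
      · exact ⟨0, fun _ => hg⟩
      · have : ∃ z, g • h₀ z ≠ h₀ z := by
          by_contra hn
          push Not at hn
          exact hg hn
        obtain ⟨z, hz⟩ := this
        exact ⟨Run7.h590.QF.nrm z, fun h => absurd (h z (Run7.h590.QF.le_nrm z)) hz⟩
    choose ν hν using h1
    let T := (hA.stab (h₀ 0)).toFinset
    refine ⟨T.sup ν, fun g hg => ?_⟩
    have hgT : g ∈ T := by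
      rw [Set.Finite.mem_toFinset]
      exact hg 0 fun i => by simp
    refine hν g fun z hz => hg z fun i => (hz i).trans ?_
    exact_mod_cast Finset.le_sup (f := ν) hgT
  obtain ⟨ρ, hρ⟩ := Run7.h590.QF.t_REC V G Γ hA k L hmin n₁
  refine ⟨ρ + n₁, fun h hh g hg => ?_⟩
  obtain ⟨g', b, hb, hag⟩ := hρ h hh h₀ hh₀
  let Cs : Set G := {u | ∀ z : Fin k → ℤ, (∀ i, |z i| ≤ ((ρ + n₁ : ℕ) : ℤ)) → u • h z = h z}
  have hCfin : Cs.Finite := (hA.stab (h 0)).subset fun u hu => hu 0 fun i => by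
    simp only [Pi.zero_apply, abs_zero]
    exact Int.natCast_nonneg _
  have hsub : F h ⊆ Cs := fun u hu z _ => hu z
  have hmap : ∀ u ∈ Cs, g'⁻¹ * u * g' ∈ F h₀ := by
    intro u hu
    refine hn₁ _ fun z hz => ?_
    have h1 : h (z + b) = g' • h₀ z := hag z hz
    have h2 : u • h (z + b) = h (z + b) := by
      refine hu _ fun i => ?_
      have h3 := abs_le.1 (hz i)
      have h4 := abs_le.1 (hb i)
      rw [abs_le]
      simp only [Pi.add_apply]
      push_cast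
      constructor <;> omega
    rw [mul_smul, mul_smul, ← h1, h2, h1, inv_smul_smul]
  have hcard : Cs.ncard ≤ (F h₀).ncard := by
    refine Set.ncard_le_ncard_of_injOn (fun u => g'⁻¹ * u * g') hmap ?_ (hFfin h₀)
    intro u _ v _ huv
    simpa using huv
  have heq : F h = Cs := Set.eq_of_subset_of_ncard_le hsub (hcard.trans (hmin₀ h hh)) hCfin
  have : g ∈ F h := by
    rw [heq]
    exact hg
  exact this

end Run7.h935.QF
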